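import Pool.Agent.Singer.PDStmt
import Pool.Agent.Singer.Index

/-!
# Singer: Poincare duality groups and subgroups of finite index

`IsPD.of_hom` : a group with an injective homomorphism onto a subgroup of finite index of an `n`-dimensional Poincare
duality group is an `n`-dimensional Poincare duality group.
-/

set_option autoImplicit false
set_option linter.unusedSectionVars false
set_option linter.unusedVariables false

namespace Singer

universe u

namespace h42

section basic
variable {Γ : Type u} [Group Γ]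

lemma csm (g k : Γ) (a : ZG Γ) : (MonoidAlgebra.single g (1 : ℤ) * a).coeff k = a.coeff (g⁻¹ * k) := by
  rw [MonoidAlgebra.coeff_single_mul_eq_mul_coeff (g⁻¹ * k) (fun m _ => by rw [eq_inv_mul_iff_mul_eq]), one_mul]

/-- an additive map which commutes with the group is linear -/
def lin {P Q : Type u} [AddCommGroup P] [Module (ZG Γ) P] [AddCommGroup Q] [Module (ZG Γ) Q] (f : P →+ Q)
    (hf : ∀ (g : Γ) (x : P), f (MonoidAlgebra.single g (1 : ℤ) • x) = MonoidAlgebra.single g (1 : ℤ) • f x) :
    P →ₗ[ZG Γ] Q where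
  toFun := f
  map_add' := f.map_add
  map_smul' a x := by
    rw [RingHom.id_apply]
    induction a using MonoidAlgebra.induction_on with
    | of g => exact hf g x
    | add a b ha hb => rw [add_smul, map_add, ha, hb, add_smul]
    | smul n a ha => rw [smul_assoc, map_zsmul, ha, smul_assoc]

end basic

section res
variable {H G : Type u} [Group H] [Group G] (j : H →* G)

/-- the homomorphism of group rings -/
noncomputable abbrev zf : ZG H →+* ZG G := MonoidAlgebra.mapDomainRingHom ℤ j

lemma zf_single (h : H) (n : ℤ) : zf j (MonoidAlgebra.single h n) = MonoidAlgebra.single (j h) n := by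
  simp [zf]

/-- the group ring of `G` as a module over the one of `H` -/
@[instance_reducible] noncomputable def modG : Module (ZG H) (ZG G) := Module.compHom _ (zf j)

variable {j} (hj : Function.Injective j)

/-- the coefficients on `H` -/
noncomputable def cd : ZG G →+ ZG H := MonoidAlgebra.comapDomainAddMonoidHom j hj

lemma coeff_cd (x : ZG G) (h : H) : (cd hj x).coeff h = x.coeff (j h) := by
  simp [cd]

lemma cd_single (h : H) (x : ZG G) : cd hj (MonoidAlgebra.single (j h) (1 : ℤ) * x) =
    MonoidAlgebra.single h (1 : ℤ) * cd hj x := by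
  refine MonoidAlgebra.ext (Finsupp.ext fun k => ?_)
  rw [coeff_cd, csm, csm, coeff_cd, map_mul j, map_inv j]

open Classical in
/-- the coordinates of the group ring with respect to a transversal -/
noncomputable def co (T : Trv j) : ZG G ≃+ (Fin T.n → ZG H) where
  toFun x q := MonoidAlgebra.ofCoeff (x.coeff.comapDomain (fun h => T.e.symm (h, q)) fun a _ b _ hab => by
    simpa using hab)
  invFun y := MonoidAlgebra.ofCoeff (Finsupp.onFinset
    (Finset.univ.biUnion fun q => (y q).coeff.support.map ⟨fun h => T.e.symm (h, q), fun a b hab => by simpa using hab⟩)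
    (fun g => (y (T.e g).2).coeff (T.e g).1) fun g hg => by
      rw [Finset.mem_biUnion]
      refine ⟨(T.e g).2, Finset.mem_univ _, ?_⟩
      rw [Finset.mem_map]
      exact ⟨(T.e g).1, Finsupp.mem_support_iff.2 hg, by simp⟩)
  left_inv x := by
    refine MonoidAlgebra.ext (Finsupp.ext fun g => ?_)
    simp
  right_inv y := by
    funext q
    refine MonoidAlgebra.ext (Finsupp.ext fun g => ?_)
    simp
  map_add' x y := by
    funext q
    refine MonoidAlgebra.ext (Finsupp.ext fun g => ?_)
    simp

lemma coeff_co (T : Trv j) (x : ZG G) (q : Fin T.n) (h : H) : (co T x q).coeff h = x.coeff (T.e.symm (h, q)) := by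
  simp [co]

lemma e_symm (T : Trv j) (h k : H) (q : Fin T.n) : T.e.symm (h * k, q) = j h * T.e.symm (k, q) := by
  rw [Equiv.symm_apply_eq, T.e_mul, Equiv.apply_symm_apply]

lemma co_single (T : Trv j) (h : H) (x : ZG G) (q : Fin T.n) : co T (MonoidAlgebra.single (j h) (1 : ℤ) * x) q =
    MonoidAlgebra.single h (1 : ℤ) * co T x q := by
  refine MonoidAlgebra.ext (Finsupp.ext fun k => ?_)
  rw [coeff_co, csm, csm, coeff_co, e_symm, map_inv j]

/-- the coordinates are linear -/
noncomputable def coL (T : Trv j) : letI := modG j; ZG G ≃ₗ[ZG H] (Fin T.n → ZG H) :=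
  letI := modG j
  { co T with
    map_smul' := fun a x => by
      have h := (lin (Γ := H) (P := ZG G) (Q := Fin T.n → ZG H) (co T).toAddMonoidHom (fun h x => by
        show co T (zf j (MonoidAlgebra.single h 1) * x) = _
        rw [zf_single]
        funext q
        exact co_single T h x q)).map_smul a x
      exact h }

/-- modules over `ℤ[G]` as modules over `ℤ[H]` -/
@[instance_reducible] noncomputable def rmod (j : H →* G) (P : Type u) [AddCommGroup P] [Module (ZG G) P] :
    Module (ZG H) P := Module.compHom _ (zf j)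

lemma finite_res (T : Trv j) (P : Type u) [AddCommGroup P] [Module (ZG G) P] [Module.Finite (ZG G) P] :
    letI := rmod j P; Module.Finite (ZG H) P := by
  letI := rmod j P
  letI := modG j
  have : IsScalarTower (ZG H) (ZG G) P := ⟨fun a b x => by
    show (zf j a * b) • x = zf j a • (b • x)
    rw [mul_smul]⟩
  have : Module.Finite (ZG H) (ZG G) := Module.Finite.equiv (coL T).symm
  exact Module.Finite.trans (ZG G) P

lemma proj_res (T : Trv j) (P : Type u) [AddCommGroup P] [Module (ZG G) P] [Module.Finite (ZG G) P]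
    [Module.Projective (ZG G) P] : letI := rmod j P; Module.Projective (ZG H) P := by
  letI := rmod j P
  letI := modG j
  obtain ⟨m, f, hf⟩ := Module.Finite.exists_fin' (ZG G) P
  obtain ⟨g, hg⟩ := Module.projective_lifting_property f LinearMap.id hf
  have : Module.Free (ZG H) (ZG G) := Module.Free.of_equiv (coL T).symm
  have : Module.Projective (ZG H) (Fin m → ZG G) := inferInstance
  let f' : (Fin m → ZG G) →ₗ[ZG H] P :=
    { toFun := f, map_add' := f.map_add, map_smul' := fun a x => f.map_smul (zf j a) x }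
  let g' : P →ₗ[ZG H] (Fin m → ZG G) :=
    { toFun := g, map_add' := g.map_add, map_smul' := fun a x => g.map_smul (zf j a) x }
  refine Module.Projective.of_split g' f' ?_
  ext x
  exact LinearMap.congr_fun hg x

/-- the restriction of a resolution -/
noncomputable def resP (T : Trv j) (R : ProjRes G) : ProjRes H where
  P := R.P
  acg := R.acg
  mod i := rmod j (R.P i)
  proj i := by
    have := R.proj i
    have := R.fin i
    exact proj_res T (R.P i)
  fin i := by
    have := R.fin i
    exact finite_res T (R.P i)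
  d i := letI := rmod j (R.P i); letI := rmod j (R.P (i + 1))
    { toFun := R.d i, map_add' := (R.d i).map_add, map_smul' := fun a x => (R.d i).map_smul (zf j a) x }
  aug := R.aug
  aug_smul h x := by
    show R.aug (zf j (MonoidAlgebra.single h (1 : ℤ)) • x) = R.aug x
    rw [zf_single]
    exact R.aug_smul (j h) x
  aug_surj := R.aug_surj
  exact_zero := R.exact_zero
  exact_succ := R.exact_succ

section hom
variable (T : Trv j) (P : Type u) [AddCommGroup P] [Module (ZG G) P]

/-- restriction of linear maps to the group ring -/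
noncomputable def eh (φ : P →ₗ[ZG G] ZG G) : letI := rmod j P; P →ₗ[ZG H] ZG H :=
  letI := rmod j P
  lin ((cd hj).comp φ.toAddMonoidHom) fun h x => by
    show cd hj (φ (zf j (MonoidAlgebra.single h (1 : ℤ)) • x)) = _
    rw [zf_single, φ.map_smul, smul_eq_mul, cd_single]
    rfl

lemma eh_apply (φ : P →ₗ[ZG G] ZG G) (x : P) : letI := rmod j P; eh hj P φ x = cd hj (φ x) := rfl

open Classical in
include T in
lemma fin_supp (ψ : letI := rmod j P; P →ₗ[ZG H] ZG H) (x : P) :
    (Function.support fun g : G => (letI := rmod j P; ψ (MonoidAlgebra.single g⁻¹ (1 : ℤ) • x) : ZG H).coeff 1).Finite := by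
  letI := rmod j P
  refine Set.Finite.subset (Finset.finite_toSet (Finset.univ.biUnion fun q : Fin T.n =>
    (ψ (MonoidAlgebra.single (T.e.symm (1, q)) (1 : ℤ) • x) : ZG H).coeff.support.image
      fun h : H => (j h⁻¹ * T.e.symm (1, q))⁻¹)) ?_
  intro g hg
  rw [Finset.mem_coe, Finset.mem_biUnion]
  refine ⟨(T.e g⁻¹).2, Finset.mem_univ _, ?_⟩
  rw [Finset.mem_image]
  have h1 : g⁻¹ = j (T.e g⁻¹).1 * T.e.symm (1, (T.e g⁻¹).2) := by
    rw [← e_symm, mul_one]
    simp
  refine ⟨(T.e g⁻¹).1⁻¹, ?_, by rw [inv_inv, ← h1, inv_inv]⟩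
  rw [Finsupp.mem_support_iff]
  rw [Function.mem_support] at hg
  intro h2
  apply hg
  rw [h1]
  have h3 : (MonoidAlgebra.single (j (T.e g⁻¹).1 * T.e.symm (1, (T.e g⁻¹).2)) (1 : ℤ) : ZG G) • x =
      (MonoidAlgebra.single (T.e g⁻¹).1 (1 : ℤ) : ZG H) •
        ((MonoidAlgebra.single (T.e.symm (1, (T.e g⁻¹).2)) (1 : ℤ) : ZG G) • x : P) := by
    show _ = zf j (MonoidAlgebra.single (T.e g⁻¹).1 (1 : ℤ)) •
      ((MonoidAlgebra.single (T.e.symm (1, (T.e g⁻¹).2)) (1 : ℤ) : ZG G) • x : P)
    rw [zf_single, smul_smul, MonoidAlgebra.single_mul_single, one_mul]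
  rw [h3, ψ.map_smul, smul_eq_mul, csm, mul_one]
  exact h2

/-- the inverse of the restriction of linear maps to the group ring -/
noncomputable def ehi (ψ : letI := rmod j P; P →ₗ[ZG H] ZG H) : P →ₗ[ZG G] ZG G :=
  letI := rmod j P
  lin
    { toFun := fun x => MonoidAlgebra.ofCoeff (Finsupp.ofSupportFinite _ (fin_supp T P ψ x))
      map_zero' := by
        refine MonoidAlgebra.ext (Finsupp.ext fun g => ?_)
        show (ψ (MonoidAlgebra.single g⁻¹ (1 : ℤ) • (0 : P)) : ZG H).coeff 1 = 0
        rw [smul_zero, map_zero]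
        rfl
      map_add' := fun x y => by
        refine MonoidAlgebra.ext (Finsupp.ext fun g => ?_)
        show (ψ (MonoidAlgebra.single g⁻¹ (1 : ℤ) • (x + y)) : ZG H).coeff 1 = _
        rw [smul_add, map_add]
        rfl } fun g x => by
    refine MonoidAlgebra.ext (Finsupp.ext fun k => ?_)
    rw [smul_eq_mul, csm]
    show (ψ (MonoidAlgebra.single k⁻¹ (1 : ℤ) • (MonoidAlgebra.single g (1 : ℤ) : ZG G) • x) : ZG H).coeff 1 =
      (ψ (MonoidAlgebra.single (g⁻¹ * k)⁻¹ (1 : ℤ) • x) : ZG H).coeff 1
    rw [smul_smul, MonoidAlgebra.single_mul_single, one_mul, mul_inv_rev, inv_inv]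

lemma coeff_ehi (ψ : letI := rmod j P; P →ₗ[ZG H] ZG H) (x : P) (g : G) :
    (ehi T P ψ x).coeff g = (letI := rmod j P; ψ (MonoidAlgebra.single g⁻¹ (1 : ℤ) • x) : ZG H).coeff 1 := rfl

/-- linear maps to the group rings -/
noncomputable def ehe : letI := rmod j P; (P →ₗ[ZG G] ZG G) ≃+ (P →ₗ[ZG H] ZG H) :=
  letI := rmod j P
  { toFun := eh hj P
    invFun := ehi T P
    left_inv := fun φ => by
      refine LinearMap.ext fun x => MonoidAlgebra.ext (Finsupp.ext fun g => ?_)
      rw [coeff_ehi]
      show (cd hj (φ (MonoidAlgebra.single g⁻¹ (1 : ℤ) • x))).coeff 1 = _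
      rw [coeff_cd, φ.map_smul, smul_eq_mul, csm, inv_inv, map_one, mul_one]
    right_inv := fun ψ => by
      refine LinearMap.ext fun x => MonoidAlgebra.ext (Finsupp.ext fun h => ?_)
      show (cd hj (ehi T P ψ x)).coeff h = _
      rw [coeff_cd, coeff_ehi, ← map_inv]
      have h3 : (MonoidAlgebra.single (j h⁻¹) (1 : ℤ) : ZG G) • x = (MonoidAlgebra.single h⁻¹ (1 : ℤ) : ZG H) • x := by
        show _ = zf j (MonoidAlgebra.single h⁻¹ (1 : ℤ)) • x
        rw [zf_single]
      rw [h3, ψ.map_smul, smul_eq_mul, csm, inv_inv, mul_one]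
    map_add' := fun φ φ' => by
      refine LinearMap.ext fun x => ?_
      show cd hj (φ x + φ' x) = cd hj (φ x) + cd hj (φ' x)
      rw [map_add] }

lemma ehe_apply (φ : P →ₗ[ZG G] ZG G) (x : P) : letI := rmod j P; ehe hj T P φ x = cd hj (φ x) := rfl

end hom

end res

/-- isomorphic cochain complexes have isomorphic cohomology -/
theorem hn_equiv {G H : Type u} [Group G] [Group H] (R : ProjRes G) (R' : ProjRes H)
    (e : ∀ i, (R.P i →ₗ[ZG G] ZG G) ≃+ (R'.P i →ₗ[ZG H] ZG H))
    (he : ∀ i φ, e (i + 1) (R.cod i φ) = R'.cod i (e i φ)) (i : ℕ) : Nonempty (R.Hn i ≃+ R'.Hn i) := by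
  have hZ : (R.Zn i).map (e i).toAddMonoidHom = R'.Zn i := by
    ext ψ
    rw [AddSubgroup.mem_map]
    constructor
    · rintro ⟨φ, hφ, rfl⟩
      show R'.cod i (e i φ) = 0
      rw [← he, show R.cod i φ = 0 from hφ, map_zero]
    · intro hψ
      refine ⟨(e i).symm ψ, ?_, (e i).apply_symm_apply ψ⟩
      show R.cod i _ = 0
      apply (e (i + 1)).injective
      rw [he, map_zero, (e i).apply_symm_apply]
      exact hψ
  have hB : ∀ φ, e i φ ∈ R'.Bn i ↔ φ ∈ R.Bn i := by
    intro φ
    cases i with
    | zero =>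
      show e 0 φ ∈ (⊥ : AddSubgroup _) ↔ φ ∈ (⊥ : AddSubgroup _)
      rw [AddSubgroup.mem_bot, AddSubgroup.mem_bot, EmbeddingLike.map_eq_zero_iff]
    | succ i =>
      constructor
      · rintro ⟨ψ, hψ⟩
        refine ⟨(e i).symm ψ, (e (i + 1)).injective ?_⟩
        rw [he, (e i).apply_symm_apply]
        exact hψ
      · rintro ⟨ψ, rfl⟩
        exact ⟨e i ψ, (he i ψ).symm⟩
  let a : R.Zn i ≃+ R'.Zn i := ((e i).addSubgroupMap (R.Zn i)).trans (AddEquiv.addSubgroupCongr hZ)
  have ha : ∀ z, ((a z : R'.Zn i) : R'.P i →ₗ[ZG H] ZG H) = e i z := fun z => rfl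
  refine ⟨QuotientAddGroup.congr _ _ a ?_⟩
  ext z
  rw [AddSubgroup.mem_map, AddSubgroup.mem_addSubgroupOf]
  constructor
  · rintro ⟨y, hy, rfl⟩
    show ((a y : R'.Zn i) : R'.P i →ₗ[ZG H] ZG H) ∈ R'.Bn i
    rw [ha]
    exact (hB _).2 (AddSubgroup.mem_addSubgroupOf.1 hy)
  · intro hz
    refine ⟨a.symm z, ?_, a.apply_symm_apply z⟩
    rw [AddSubgroup.mem_addSubgroupOf]
    apply (hB _).1
    rw [← ha, a.apply_symm_apply]
    exact hz

end h42

/-- Poincare duality passes to subgroups of finite index -/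
theorem IsPD.of_hom {G H : Type u} [Group G] [Group H] {n : ℕ} (h : IsPD n G) (j : H →* G)
    (hj : Function.Injective j) (hf : j.range.FiniteIndex) : IsPD n H := by
  obtain ⟨T⟩ := exists_trv_hom j hj hf
  obtain ⟨R, ⟨N, hN⟩, h0, ⟨e⟩⟩ := h
  have key : ∀ i, Nonempty (R.Hn i ≃+ (h42.resP T R).Hn i) := fun i =>
    h42.hn_equiv R (h42.resP T R) (fun i => h42.ehe hj T (R.P i)) (fun i φ => rfl) i
  refine ⟨h42.resP T R, ⟨N, hN⟩, fun i hi => ?_, ?_⟩
  · obtain ⟨a⟩ := key i
    have := h0 i hi
    exact a.symm.subsingleton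
  · obtain ⟨a⟩ := key n
    exact ⟨a.symm.trans e⟩

/-- Poincare duality passes to subgroups of finite index -/
theorem IsPD.of_finiteIndex {G : Type u} [Group G] {n : ℕ} (h : IsPD n G) (H : Subgroup G) [hH : H.FiniteIndex] :
    IsPD n H :=
  h.of_hom H.subtype H.subtype_injective (by rw [H.range_subtype]; exact hH)

/-- Poincare duality is invariant under isomorphisms -/
theorem IsPD.congr {G H : Type u} [Group G] [Group H] {n : ℕ} (h : IsPD n G) (e : H ≃* G) : IsPD n H :=
  h.of_hom e.toMonoidHom e.injective (by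
    have h1 : e.toMonoidHom.range = ⊤ := MonoidHom.range_eq_top.2 e.surjective
    rw [h1]
    infer_instance)

end Singer
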