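import Pool.Agent.Helper42.SQ.PDDown
import Pool.Agent.Singer.FinElem

/-!
# Singer: resolutions and subgroups of finite index

`FinRes.resFin` : the restriction of a resolution by finitely generated free modules to a subgroup of finite index;
`FinRes.vanE_of_hom` : if the reduced `ℓ²`-homology of the subgroup, computed with every resolution, vanishes, then so does the
one of the group.
-/

set_option autoImplicit false
set_option linter.unusedSectionVars false
set_option linter.unusedVariables false

open scoped Matrix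

namespace Singer

universe u

namespace h42

section
variable {H G : Type u} [Group H] [Group G] {j : H →* G}

/-- the sum of the coefficients -/
lemma sum_add {Γ : Type*} [Group Γ] (x y : MonoidAlgebra ℤ Γ) : ∑ g ∈ (x + y).coeff.support, (x + y).coeff g =
    ∑ g ∈ x.coeff.support, x.coeff g + ∑ g ∈ y.coeff.support, y.coeff g := by
  classical
  have h : ∀ z : Γ →₀ ℤ, ∑ g ∈ z.support, z g = z.sum fun _ n => n := fun z => rfl
  rw [h, h, h, MonoidAlgebra.coeff_add, Finsupp.sum_add_index' (fun _ => rfl) (fun _ _ _ => rfl)]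

/-- the sum of the coefficients, as a homomorphism -/
noncomputable def sumc (Γ : Type*) [Group Γ] : MonoidAlgebra ℤ Γ →+ ℤ where
  toFun x := ∑ g ∈ x.coeff.support, x.coeff g
  map_zero' := by simp
  map_add' x y := sum_add x y

lemma sumc_apply {Γ : Type*} [Group Γ] (x : MonoidAlgebra ℤ Γ) : sumc Γ x = ∑ g ∈ x.coeff.support, x.coeff g := rfl

lemma sumc_single {Γ : Type*} [Group Γ] (g : Γ) (n : ℤ) : sumc Γ (MonoidAlgebra.single g n) = n := by
  classical
  rw [sumc_apply]
  show (Finsupp.sum (MonoidAlgebra.single g n).coeff fun _ n => n) = n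
  rw [MonoidAlgebra.coeff_single, Finsupp.sum_single_index rfl]

lemma co_sgl (T : Trv j) (g : G) (n : ℤ) : co T (MonoidAlgebra.single g n) =
    Pi.single (T.e g).2 (MonoidAlgebra.single (T.e g).1 n) := by
  classical
  funext q
  refine MonoidAlgebra.ext (Finsupp.ext fun h => ?_)
  rw [coeff_co, MonoidAlgebra.coeff_single]
  by_cases hq : q = (T.e g).2
  · subst hq
    rw [Pi.single_eq_same, MonoidAlgebra.coeff_single]
    by_cases hh : (T.e g).1 = h
    · subst hh
      rw [Finsupp.single_eq_same, show T.e.symm ((T.e g).1, (T.e g).2) = g by simp, Finsupp.single_eq_same]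
    · rw [Finsupp.single_apply, Finsupp.single_apply, if_neg hh, if_neg]
      intro h1
      apply hh
      rw [h1]
      simp
  · rw [Pi.single_eq_of_ne hq, MonoidAlgebra.coeff_zero, Finsupp.zero_apply, Finsupp.single_apply, if_neg]
    intro h1
    apply hq
    rw [h1]
    simp

lemma sum_co (T : Trv j) (x : ZG G) : ∑ q, sumc H (co T x q) = sumc G x := by
  classical
  induction x using MonoidAlgebra.induction_on with
  | of g =>
    show ∑ q, sumc H (co T (MonoidAlgebra.single g 1) q) = sumc G (MonoidAlgebra.single g 1)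
    rw [co_sgl, sumc_single, Finset.sum_eq_single (T.e g).2, Pi.single_eq_same, sumc_single]
    · intro q _ hq
      rw [Pi.single_eq_of_ne hq, map_zero]
    · intro h
      exact absurd (Finset.mem_univ _) h
  | add a b ha hb => simp only [map_add, Pi.add_apply, Finset.sum_add_distrib, ha, hb]
  | smul n a ha => simp only [map_zsmul, Pi.smul_apply, ← Finset.smul_sum, ha]

lemma co_mul (T : Trv j) (a : ZG H) (x : ZG G) (q : Fin T.n) : co T (zf j a * x) q = a * co T x q := by
  letI := modG j
  exact congrFun ((coL T).map_smul a x) q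

lemma decomp (T : Trv j) (x : ZG G) :
    x = ∑ p, zf j (co T x p) * MonoidAlgebra.single (T.e.symm (1, p)) (1 : ℤ) := by
  classical
  apply (co T).injective
  funext q
  rw [map_sum, Finset.sum_apply, Finset.sum_eq_single q]
  · rw [co_mul, co_sgl, Equiv.apply_symm_apply, Pi.single_eq_same]
    exact (mul_one _).symm
  · intro p _ hp
    rw [co_mul, co_sgl, Equiv.apply_symm_apply, Pi.single_eq_of_ne hp.symm, mul_zero]
  · intro h
    exact absurd (Finset.mem_univ _) h

/-- coordinates of rows -/
noncomputable def rwe (T : Trv j) (ι : Type) : (ι → ZG G) ≃+ (Fin T.n × ι → ZG H) where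
  toFun x p := co T (x p.2) p.1
  invFun y k := (co T).symm fun q => y (q, k)
  left_inv x := by
    funext k
    have h := (co T).symm_apply_apply (x k)
    exact h
  right_inv y := by
    funext p
    have h := (co T).apply_symm_apply (fun q => y (q, p.2))
    exact congrFun h p.1
  map_add' x y := by
    funext p
    have h := map_add (co T) (x p.2) (y p.2)
    exact congrFun h p.1

/-- the matrix over the group ring of the subgroup -/
noncomputable def mt (T : Trv j) {κ ι : Type} (M : Matrix κ ι (ZG G)) : Matrix (Fin T.n × κ) (Fin T.n × ι) (ZG H) :=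
  fun p q => co T (MonoidAlgebra.single (T.e.symm (1, p.1)) (1 : ℤ) * M p.2 q.2) q.1

lemma rw_mul (T : Trv j) {κ ι : Type} [Fintype κ] (M : Matrix κ ι (ZG G)) (x : κ → ZG G) :
    rwe T ι (x ᵥ* M) = rwe T κ x ᵥ* mt T M := by
  funext ⟨q, l⟩
  show co T (∑ k, x k * M k l) q = ∑ p : Fin T.n × κ, co T (x p.2) p.1 *
    co T (MonoidAlgebra.single (T.e.symm (1, p.1)) (1 : ℤ) * M p.2 l) q
  rw [map_sum, Finset.sum_apply, Fintype.sum_prod_type_right]
  refine Finset.sum_congr rfl fun k _ => ?_
  conv_lhs => rw [decomp T (x k)]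
  rw [Finset.sum_mul, map_sum, Finset.sum_apply]
  refine Finset.sum_congr rfl fun p _ => ?_
  rw [mul_assoc, co_mul]

lemma augw_rw (T : Trv j) {ι : Type} [Fintype ι] (w : ι → ℤ) (x : ι → ZG G) :
    augw (fun p : Fin T.n × ι => w p.2) (rwe T ι x) = augw w x := by
  unfold augw
  show ∑ p : Fin T.n × ι, w p.2 * sumc H (co T (x p.2) p.1) = ∑ i, w i * sumc G (x i)
  rw [Fintype.sum_prod_type_right]
  refine Finset.sum_congr rfl fun k _ => ?_
  rw [← sum_co T (x k), Finset.mul_sum]

end

end h42

/-- the restriction of a resolution to a subgroup of finite index -/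
noncomputable def FinRes.resFin {H G : Type u} [Group H] [Group G] {j : H →* G} (T : Trv j) (R : FinRes G) : FinRes H where
  ι i := Fin T.n × R.ι i
  ft i := inferInstance
  d i := h42.mt T (R.d i)
  w p := R.w p.2
  surj := by
    obtain ⟨x, hx⟩ := R.surj
    exact ⟨h42.rwe T _ x, by rw [h42.augw_rw, hx]⟩
  exact_zero x := by
    obtain ⟨x, rfl⟩ := (h42.rwe T (R.ι 0)).surjective x
    rw [h42.augw_rw, R.exact_zero]
    constructor
    · rintro ⟨y, rfl⟩
      exact ⟨h42.rwe T _ y, (h42.rw_mul T _ y).symm⟩
    · rintro ⟨y, hy⟩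
      obtain ⟨y, rfl⟩ := (h42.rwe T (R.ι (0 + 1))).surjective y
      rw [← h42.rw_mul] at hy
      exact ⟨y, (h42.rwe T _).injective hy⟩
  exact_succ i x := by
    obtain ⟨x, rfl⟩ := (h42.rwe T (R.ι (i + 1))).surjective x
    rw [← h42.rw_mul, EmbeddingLike.map_eq_zero_iff, R.exact_succ]
    constructor
    · rintro ⟨y, rfl⟩
      exact ⟨h42.rwe T _ y, (h42.rw_mul T _ y).symm⟩
    · rintro ⟨y, hy⟩
      obtain ⟨y, rfl⟩ := (h42.rwe T (R.ι (i + 1 + 1))).surjective y
      rw [← h42.rw_mul] at hy
      exact ⟨y, (h42.rwe T _).injective hy⟩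

/-- the vanishing for a group `H` with an injective homomorphism onto a subgroup of finite index of `G` implies the one
for `G` -/
theorem FinRes.vanE_of_hom {H G : Type u} [Group H] [Group G] (j : H →* G) (hj : Function.Injective j)
    (hf : j.range.FiniteIndex) {i : ℕ} (h : ∀ R : FinRes H, R.VanE i) (R : FinRes G) : R.VanE i := by
  obtain ⟨T⟩ := exists_trv_hom j hj hf
  rw [← van_iff_vanE, ← R.van_index j hj hf (R.resFin T) i, van_iff_vanE]
  exact h _

/-- the vanishing for a subgroup of finite index implies the one for the group -/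
theorem FinRes.vanE_of_index {G : Type u} [Group G] (H : Subgroup G) [hH : H.FiniteIndex] {i : ℕ}
    (h : ∀ R : FinRes H, R.VanE i) (R : FinRes G) : R.VanE i :=
  FinRes.vanE_of_hom H.subtype H.subtype_injective (by rw [H.range_subtype]; exact hH) h R

/-- the vanishing for a group implies the one for the subgroups of finite index, if the group has a resolution -/
theorem FinRes.vanE_index {H G : Type u} [Group H] [Group G] (j : H →* G) (hj : Function.Injective j)
    (hf : j.range.FiniteIndex) {i : ℕ} (R : FinRes G) (h : R.VanE i) (R' : FinRes H) : R'.VanE i := by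
  rw [← van_iff_vanE, R.van_index j hj hf R' i, van_iff_vanE]
  exact h

end Singer
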