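import Pool.Agent.Helper42.SQ.ResDown
import Pool.Agent.SQ.Fin

/-!
# SQ: from the subgroups of the commutator subgroup of a right-angled Coxeter group to the groups which are commensurable
with subgroups of right-angled Coxeter groups
-/

set_option autoImplicit false

namespace SQ

open Singer

/-- the conclusion of `vanE_of_rows` -/
def StmtVAN : Prop :=
  ∀ (V : Type) [Finite V] (G : SimpleGraph V) (Γ : Type) [Group Γ] (f : Γ →* commutator (RACG G)),
    Function.Injective f → ∀ n, IsPD n Γ → ∀ (R : FinRes Γ) (i : ℕ), 2 * i ≠ n → R.VanE i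

/-- Let `H → Γ` be an injective homomorphism onto a subgroup of finite index and let `H` embed in the right-angled Coxeter
group of a finite graph.  If `Γ` or `H` is a Poincare duality group of dimension `n`, then the reduced `ℓ²`-homology of
`Γ` vanishes in the degrees `i` with `2 * i ≠ n` -/
theorem vanE_of_virtual (hV : StmtVAN) {V : Type} [Finite V] (G : SimpleGraph V) {Γ H : Type} [Group Γ] [Group H]
    (j : H →* Γ) (hj : Function.Injective j) (hf : j.range.FiniteIndex) (φ : H →* RACG G)
    (hφ : Function.Injective φ) {n : ℕ} (hn : IsPD n Γ ∨ IsPD n H) (R : FinRes Γ) (i : ℕ) (hi : 2 * i ≠ n) :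
    R.VanE i := by
  classical
  have hH : IsPD n H := hn.elim (fun h => h.of_hom j hj hf) id
  have : (commutator (RACG G)).FiniteIndex := FinSt.finiteIndex_commutator G
  let K : Subgroup H := (commutator (RACG G)).comap φ
  have hK : K.FiniteIndex := ⟨by
    rw [Subgroup.index_comap]
    exact (Subgroup.instFiniteIndex_subgroupOf (commutator (RACG G)) φ.range).index_ne_zero⟩
  have hKn : IsPD n K := hH.of_finiteIndex K
  let f : K →* commutator (RACG G) :=
    { toFun := fun x => ⟨φ x.1, x.2⟩
      map_one' := Subtype.ext (map_one φ)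
      map_mul' := fun x y => Subtype.ext (map_mul φ x.1 y.1) }
  have hf' : Function.Injective f := fun x y h => Subtype.ext (hφ (congrArg Subtype.val h))
  have h1 : ∀ R : FinRes K, R.VanE i := fun R => hV V G K f hf' n hKn R i hi
  have h2 : ((j.comp K.subtype).range).FiniteIndex := by
    rw [MonoidHom.range_comp, Subgroup.range_subtype]
    refine ⟨fun h0 => ?_⟩
    rw [Subgroup.index_map_of_injective K hj] at h0
    rcases mul_eq_zero.1 h0 with h0 | h0
    · exact hK.index_ne_zero h0
    · exact hf.index_ne_zero h0
  exact FinRes.vanE_of_hom (j.comp K.subtype) (hj.comp K.subtype_injective) h2 h1 R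

/-- the same for a subgroup -/
theorem vanE_of_virtual_sub (hV : StmtVAN) {V : Type} [Finite V] (G : SimpleGraph V) {Γ : Type} [Group Γ]
    (H : Subgroup Γ) (hf : H.FiniteIndex) (φ : H →* RACG G) (hφ : Function.Injective φ) {n : ℕ}
    (hn : IsPD n Γ ∨ IsPD n H) (R : FinRes Γ) (i : ℕ) (hi : 2 * i ≠ n) : R.VanE i :=
  vanE_of_virtual hV G H.subtype H.subtype_injective (by rw [H.range_subtype]; exact hf) φ hφ hn R i hi

end SQ
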