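import Pool.Agent.Singer.Stmt5Conv

/-!
# Groups which act on convex subcomplexes of Davis complexes whose vertex links are flag homology spheres
-/

set_option autoImplicit false
set_option linter.unusedSectionVars false
set_option linter.unusedVariables false

namespace Singer
namespace Om

universe u

open Racg

/-- Poincare duality, from the sphere condition for the links -/
theorem pd_of {n : ℕ} {V : Type u} [Fintype V] {G : SimpleGraph V} {Ω : Set (RACG G)} (hΩ : LC Ω)
    (hlk : ∀ w ∈ Ω, ∀ [Fintype {v // v ∈ dir Ω w}],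
      GoodQ (fun n {V} [Fintype V] (G : SimpleGraph V) => QS.{u} n G) n (Singer.res G (dir Ω w)))
    {H : Subgroup (RACG G)} (hC : Coc Ω H) (hinv : NoInv H) :
    IsPD n H ∧ ∃ R : FinRes H, ∃ N, ∀ i, N < i → IsEmpty (R.ι i) := by
  classical
  have hr : Function.Injective (rk : V → ℕ) := fun a b hab =>
    (Fintype.equivFin V).injective (Fin.ext hab)
  obtain ⟨F⟩ := exists_oframe hΩ hC hinv.fr
  obtain ⟨τ, hτ⟩ := exists_osph (fun w hw => hlk w hw) hΩ.one hr
  refine ⟨isPD_of_osph hΩ F hC.act hr hτ, ?_⟩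
  obtain ⟨R, hR⟩ := exists_ofinRes hΩ F hC.act hr
  exact ⟨R, _, hR⟩

end Om
end Singer

namespace SingerCube

open SingerPD Singer

/-- the groups which act freely and with finitely many orbits on a convex subcomplex of the Davis complex of a
right-angled Coxeter group, all of whose vertex links are flag homology spheres of dimension `n - 1`, are Poincare duality
groups of dimension `n` -/
theorem isPD_of_cube {n : ℕ} {V : Type} [Finite V] {G : SimpleGraph V} {Ω : Set (Cox G)} (hΩ : Convex Ω)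
    (hlk : ∀ w ∈ Ω, HSphere n (star Ω w)) {H : Subgroup (Cox G)} (hH : ∀ h ∈ H, ∀ w ∈ Ω, h * w ∈ Ω)
    (hfin : ∃ F : Set (Cox G), F.Finite ∧ ∀ w ∈ Ω, ∃ h ∈ H, ∃ f ∈ F, w = h * f) (hinv : NoInv H) :
    IsPD n H ∧ ∃ R : FinRes H, ∃ N, ∀ i, N < i → IsEmpty (R.ι i) := by
  classical
  have : Fintype V := Fintype.ofFinite V
  have key : ∀ w : Cox G, w ∈ Ω → ∀ [Fintype {v // v ∈ Om.dir (G := G) Ω w}],
      GoodQ (fun n {V} [Fintype V] (G : SimpleGraph V) => QS.{0} n G) n (Singer.res G (Om.dir (G := G) Ω w)) := by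
    intro w hw I
    have J : Fintype {v : V // w * gen v ∈ Ω} := Fintype.ofFinite _
    exact goodQ_iso closed_QS
      (⟨Equiv.subtypeEquivRight fun v => (Om.mem_dir (G := G) (Ω := Ω) (w := w)).symm, Iff.rfl⟩ :
        star Ω w ≃g Singer.res G (Om.dir (G := G) Ω w))
      (goodQ_of_hsphere (hlk w hw))
  exact Om.pd_of hΩ.lc (fun w hw => key w hw) ⟨hH, hfin⟩ hinv

end SingerCube
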